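import Pool.Agent.SZT.StmtsB

/-!
# Squad SZT, row LIM (helper6): the roots of a quadratic with different norms are limits
-/

set_option autoImplicit false

namespace Pool.Agent.SZT.H6

open Pool.Agent.SZT.B

theorem approx {K L : Type} [Field K] [NormedField L] [IsUltrametricDist L] (φ : K →+* L)
    (p q : K) (z₁ z₂ : L) (hs : z₁ + z₂ = φ p) (hm : z₁ * z₂ = φ q) (hlt : ‖z₁‖ < ‖z₂‖) (n : ℕ) :
    ∃ κ : K, ‖z₁ - φ κ‖ ≤ ‖z₁‖ * (‖z₁‖ / ‖z₂‖) ^ n := by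
  have h2 : 0 < ‖z₂‖ := (norm_nonneg _).trans_lt hlt
  have hρ0 : 0 ≤ ‖z₁‖ / ‖z₂‖ := div_nonneg (norm_nonneg _) h2.le
  have hρ1 : ‖z₁‖ / ‖z₂‖ < 1 := (div_lt_one h2).2 hlt
  induction n with
  | zero => exact ⟨0, by simp⟩
  | succ n ih =>
    obtain ⟨κ, hκ⟩ := ih
    have hle : ‖z₁ - φ κ‖ ≤ ‖z₁‖ :=
      hκ.trans (mul_le_of_le_one_right (norm_nonneg _) (pow_le_one₀ hρ0 hρ1.le))
    have hlt' : ‖z₁ - φ κ‖ < ‖z₂‖ := hle.trans_lt hlt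
    have hden : φ p - φ κ = (z₁ - φ κ) + z₂ := by
      rw [← hs]
      ring
    have hnd : ‖φ p - φ κ‖ = ‖z₂‖ := by
      rw [hden, IsUltrametricDist.norm_add_eq_max_of_norm_ne_norm hlt'.ne, max_eq_right hlt'.le]
    have hne : φ p - φ κ ≠ 0 := by
      intro h
      rw [h, norm_zero] at hnd
      exact h2.ne hnd
    refine ⟨q / (p - κ), ?_⟩
    have h3 : z₁ - φ (q / (p - κ)) = z₁ * (z₁ - φ κ) / (φ p - φ κ) := by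
      rw [map_div₀, map_sub, eq_div_iff hne, sub_mul, div_mul_cancel₀ _ hne, ← hm, ← hs]
      ring
    rw [h3, norm_div, norm_mul, hnd, pow_succ]
    calc ‖z₁‖ * ‖z₁ - φ κ‖ / ‖z₂‖ = ‖z₁ - φ κ‖ * (‖z₁‖ / ‖z₂‖) := by ring
      _ ≤ ‖z₁‖ * (‖z₁‖ / ‖z₂‖) ^ n * (‖z₁‖ / ‖z₂‖) := mul_le_mul_of_nonneg_right hκ hρ0
      _ = ‖z₁‖ * ((‖z₁‖ / ‖z₂‖) ^ n * (‖z₁‖ / ‖z₂‖)) := by ring

theorem lim : LimStmt := by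
  intro K L _ _ _ φ p q z₁ z₂ hs hm hlt
  have h2 : 0 < ‖z₂‖ := (norm_nonneg _).trans_lt hlt
  have hρ0 : 0 ≤ ‖z₁‖ / ‖z₂‖ := div_nonneg (norm_nonneg _) h2.le
  have hρ1 : ‖z₁‖ / ‖z₂‖ < 1 := (div_lt_one h2).2 hlt
  have key : ∀ ε : ℝ, 0 < ε → ∃ κ : K, ‖z₁ - φ κ‖ < ε := by
    intro ε hε
    have h1 : (0 : ℝ) < ‖z₁‖ + 1 := by positivity
    obtain ⟨n, hn⟩ := exists_pow_lt_of_lt_one (div_pos hε h1) hρ1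
    obtain ⟨κ, hκ⟩ := approx φ p q z₁ z₂ hs hm hlt n
    refine ⟨κ, hκ.trans_lt ?_⟩
    rw [lt_div_iff₀ h1] at hn
    have h3 : ‖z₁‖ * (‖z₁‖ / ‖z₂‖) ^ n ≤ (‖z₁‖ / ‖z₂‖) ^ n * (‖z₁‖ + 1) := by
      have h4 : 0 ≤ (‖z₁‖ / ‖z₂‖) ^ n := pow_nonneg hρ0 n
      nlinarith [norm_nonneg z₁]
    exact h3.trans_lt hn
  refine ⟨key, ?_⟩
  intro ε hε
  obtain ⟨κ, hκ⟩ := key ε hε
  refine ⟨p - κ, ?_⟩
  have h5 : z₂ - φ (p - κ) = -(z₁ - φ κ) := by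
    rw [map_sub, ← hs]
    ring
  rw [h5, norm_neg]
  exact hκ

end Pool.Agent.SZT.H6
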