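import Pool.Agent.SZT.StmtsA
import Pool.Agent.Helper13_MNT.ODN

/-!
# Squad SZT, row ODN (helper6): the inequality at odd discs, nonarchimedean case, two points
-/

set_option autoImplicit false

namespace Pool.Agent.SZT.H6

open Polynomial BHT.H36
open Pool.Agent.MNT.H13 (prod_norm taylor_prod split_norm dom_sub dom_norm log_prod)
open scoped Classical

/-- ODN -/
theorem odn : Pool.Agent.SZT.OdnStmt := by
  intro E _ v hv F a N U W hF0 hF hU hsol ζ δ hδ hodd
  obtain ⟨hN, heq, hdeg, hlead, -⟩ := hsol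
  have hU0 : U ≠ 0 := by
    rintro rfl
    rw [Polynomial.natDegree_zero] at hdeg
    omega
  have hlc : v U.leadingCoeff = 1 := by
    have h1 := congrArg v hlead
    rw [map_pow, map_one] at h1
    exact (pow_eq_one_iff_of_nonneg (v.nonneg _) two_ne_zero).1 h1
  have hcard : Multiset.card U.roots = 2 * N := by
    rw [← hdeg]
    exact hU.natDegree_eq_card_roots.symm
  obtain ⟨hsU, hDU⟩ := split_norm hv hδ ζ U hU hU0
  obtain ⟨G, hG⟩ : ∃ G : E[X], G = ((X - C (a 0)) * (X - C (a 1))) ^ N := ⟨_, rfl⟩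
  have hG0 : G ≠ 0 := by
    rw [hG]
    exact pow_ne_zero _ (mul_ne_zero (X_sub_C_ne_zero _) (X_sub_C_ne_zero _))
  -- the norm of `G`
  obtain ⟨M, hM⟩ : ∃ M : ℝ, M = (max δ (v (a 0 - ζ)) * max δ (v (a 1 - ζ))) ^ N := ⟨_, rfl⟩
  have hm0 : 0 < max δ (v (a 0 - ζ)) := lt_max_of_lt_left hδ
  have hm1 : 0 < max δ (v (a 1 - ζ)) := lt_max_of_lt_left hδ
  have hDG : 0 < M ∧ ∃ m, Dom v δ (Polynomial.taylor ζ G) m M := by
    obtain ⟨ht, hD⟩ := prod_norm hv hδ ζ (Multiset.replicate N (a 0) + Multiset.replicate N (a 1))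
    have h2 : Polynomial.taylor ζ G = ((Multiset.replicate N (a 0) +
        Multiset.replicate N (a 1)).map fun α => X + C (ζ - α)).prod := by
      rw [← taylor_prod, Multiset.map_add, Multiset.prod_add, Multiset.map_replicate,
        Multiset.prod_replicate, Multiset.map_replicate, Multiset.prod_replicate, hG, mul_pow]
    have h3 : ((Multiset.replicate N (a 0) + Multiset.replicate N (a 1)).map fun α =>
        max δ (v (α - ζ))).prod = M := by
      rw [Multiset.map_add, Multiset.prod_add, Multiset.map_replicate,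
        Multiset.prod_replicate, Multiset.map_replicate, Multiset.prod_replicate, hM, mul_pow]
    rw [h3] at ht
    rw [h3, ← h2] at hD
    exact ⟨ht, _, hD⟩
  obtain ⟨hsG, m, hDG⟩ := hDG
  rw [← hG] at heq
  have key : v U.leadingCoeff * (U.roots.map fun α => max δ (v (α - ζ))).prod ≤ M := by
    by_contra hcon
    push Not at hcon
    obtain ⟨sU, hsU'⟩ : ∃ s, s = v U.leadingCoeff * (U.roots.map fun α => max δ (v (α - ζ))).prod :=
      ⟨_, rfl⟩
    rw [← hsU'] at hsU hDU hcon
    have hUU := Dom.mul hv hδ hsU hsU hDU hDU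
    have hGG := Dom.mul hv hδ hsG hsG hDG hDG
    have hlt : M * M < sU * sU := mul_lt_mul'' hcon hcon hsG.le hsG.le
    have hdiff := dom_sub hv hδ hUU hGG.2.1 hlt
    have hTeq : Polynomial.taylor ζ U * Polynomial.taylor ζ U -
        Polynomial.taylor ζ G * Polynomial.taylor ζ G =
        Polynomial.taylor ζ F * (Polynomial.taylor ζ W * Polynomial.taylor ζ W) := by
      rw [← Polynomial.taylor_mul, ← Polynomial.taylor_mul, ← Polynomial.taylor_mul,
        ← Polynomial.taylor_mul, ← map_sub]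
      congr 1
      linear_combination heq
    have hW0 : W ≠ 0 := by
      rintro rfl
      rw [map_zero, mul_zero, mul_zero] at hTeq
      rw [hTeq] at hdiff
      have h1 := hdiff.1
      rw [Polynomial.coeff_zero, map_zero, zero_mul] at h1
      exact (mul_pos hsU hsU).ne h1
    have hTW : Polynomial.taylor ζ W ≠ 0 := fun h =>
      hW0 (Polynomial.taylor_injective ζ (by rw [h, map_zero]))
    obtain ⟨n', s', hs', hD'⟩ := Dom.exists (v := v) hδ hTW
    obtain ⟨hsF, hDF⟩ := split_norm hv hδ ζ F hF hF0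
    have hfin := Dom.mul hv hδ hsF (mul_pos hs' hs') hDF (Dom.mul hv hδ hs' hs' hD' hD')
    rw [← hTeq] at hfin
    have h1 := Dom.unique hdiff hfin
    unfold BHT.cnt at hodd
    obtain ⟨q, hq⟩ := hodd
    have e2 : (F.roots.countP fun α => v (α - ζ) ≤ δ) = 2 * q + 1 := by
      rw [← hq]
    omega
  rw [hlc, one_mul] at key
  unfold Hm JJ
  rw [log_prod (fun α => max δ (v (α - ζ))) (fun α => lt_max_of_lt_left hδ), hcard, add_zero]
  have h4 : Real.log M = (2 * N : ℕ) / 2 *
      (Real.log (max δ (v (a 0 - ζ))) + Real.log (max δ (v (a 1 - ζ)))) := by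
    rw [hM, Real.log_pow, Real.log_mul hm0.ne' hm1.ne']
    push_cast
    ring
  rw [← h4]
  exact Real.log_le_log (prod_norm hv hδ ζ U.roots).1 key

end Pool.Agent.SZT.H6
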